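import Pool.Agent.Lib.MP_943dad_ag.AL.Seq
import Pool.Agent.Lib.MP_943dad_ag.HMv.Moves

set_option linter.all false

/-!
# Counting homomorphisms

Plan. A homomorphism `φ : F g n →* H` is the function of its values on the generators (`FreeGroup.lift`, `Fin g × Bool ⊕ Fin n → H`);
`φ (R g n) = (ofFn fun i => [φ a_i, φ b_i]).prod * (ofFn fun j => φ (c g j)).prod`. For `n = N + 1` the last value is determined by the others
if `φ (R g n) = 1` (`List.ofFn_succ'` or `Fin.snoc`): so `Cov H g (N + 1)` is in bijection with the `(x, y)`, `x : Fin g × Bool → H`,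
`y : Fin N → {h // h ≠ 1}`, for which `(∏ commutators of x) * (∏ y) ≠ 1`. `bad_le`: forget this condition; `¬ W.Sublist (ofFn (N + 1 values))`
implies `¬ W.Sublist (ofFn (first N values))`; `seq_count` with `A = {h // h ≠ 1}`. `cov_ge`, `N = K + 1`: all pairs `(x, y)`: `q ^ (2 g) * (q - 1) ^ (K + 1)`,
those with product `= 1`: `y` is determined by its first `K` values: at most `q ^ (2 g) * (q - 1) ^ K`.
-/

namespace Pool.Agent.AL

open Pool.Agent.HMv

/-- The covers which are branched exactly over the points `c_j`. -/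
def Cov (H : Type) [Group H] (g n : ℕ) : Set (F g n →* H) := {φ | φ (R g n) = 1 ∧ ∀ j : Fin n, φ (c g j) ≠ 1}

variable {H : Type} [Group H]

private def Cnt_x {g n : ℕ} (φ : F g n →* H) : Fin g × Bool → H := fun p => φ (FreeGroup.of (Sum.inl p))

private def Cnt_Q {g : ℕ} (x : Fin g × Bool → H) : H :=
  (List.ofFn fun i : Fin g => x (i, false) * x (i, true) * (x (i, false))⁻¹ * (x (i, true))⁻¹).prod

private theorem Cnt_R {g n : ℕ} (φ : F g n →* H) :
    φ (R g n) = Cnt_Q (Cnt_x φ) * (List.ofFn fun j : Fin n => φ (c g j)).prod := by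
  unfold R Cnt_Q
  rw [map_mul, map_list_prod, map_list_prod, List.map_ofFn, List.map_ofFn]
  have e1 : (⇑φ ∘ fun i : Fin g => a n i * b n i * (a n i)⁻¹ * (b n i)⁻¹) =
      fun i : Fin g => Cnt_x φ (i, false) * Cnt_x φ (i, true) * (Cnt_x φ (i, false))⁻¹ * (Cnt_x φ (i, true))⁻¹ := by
    funext i
    simp only [Function.comp, map_mul, map_inv]
    rfl
  rw [e1]
  rfl

private theorem Cnt_ext {g n : ℕ} {φ ψ : F g n →* H} (h1 : Cnt_x φ = Cnt_x ψ)
    (h2 : ∀ j : Fin n, φ (c g j) = ψ (c g j)) : φ = ψ := by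
  refine FreeGroup.ext_hom _ _ fun s => ?_
  rcases s with p | j
  · exact congrFun h1 p
  · exact h2 j

private theorem Cnt_last {g n : ℕ} {φ ψ : F g (n + 1) →* H} (hφ : φ (R g (n + 1)) = 1) (hψ : ψ (R g (n + 1)) = 1)
    (h1 : Cnt_x φ = Cnt_x ψ) (h2 : ∀ j : Fin n, φ (c g j.castSucc) = ψ (c g j.castSucc)) : φ = ψ := by
  refine Cnt_ext h1 fun j => ?_
  rw [Cnt_R, List.ofFn_succ', List.prod_concat] at hφ hψ
  have h3 : (List.ofFn fun i : Fin n => φ (c g i.castSucc)) = List.ofFn fun i : Fin n => ψ (c g i.castSucc) := by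
    rw [funext h2]
  rw [← h1, ← h3] at hψ
  have h4 := mul_left_cancel (mul_left_cancel (hψ.trans hφ.symm))
  refine Fin.lastCases ?_ (fun j => ?_) j
  · exact h4.symm
  · exact h2 j

variable [Finite H]

theorem finite_hom (g n : ℕ) : Finite (F g n →* H) :=
  Finite.of_injective (fun φ : F g n →* H => fun s => φ (FreeGroup.of s)) fun φ ψ h =>
    FreeGroup.ext_hom _ _ fun s => congrFun h s

private theorem Cnt_cardx (g : ℕ) : Nat.card (Fin g × Bool → H) = Nat.card H ^ (2 * g) := by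
  rw [Nat.card_fun, Nat.card_prod]
  simp [mul_comm]

private theorem Cnt_cardA : Nat.card {h : H // h ≠ 1} = Nat.card H - 1 := by
  classical
  haveI := Fintype.ofFinite H
  rw [Nat.card_eq_fintype_card, Nat.card_eq_fintype_card, Fintype.card_subtype_compl]
  simp

/-- `W` is a list of elements different from `1`. -/
theorem bad_le (g N : ℕ) (W : List H) (hW : ∀ w ∈ W, w ≠ 1) :
    {φ ∈ Cov H g (N + 1) | ¬ W.Sublist (List.ofFn fun j => φ (c g j))}.ncard ≤
      Nat.card H ^ (2 * g) *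
        (((Nat.card H - 1) ^ W.length - 1) ^ (N / W.length) * (Nat.card H - 1) ^ (N % W.length)) := by
  classical
  haveI := Fintype.ofFinite H
  obtain ⟨W', hW'⟩ : ∃ W' : List {h : H // h ≠ 1}, W'.map Subtype.val = W := ⟨W.attachWith _ hW, by simp⟩
  have hlen : W'.length = W.length := by rw [← hW', List.length_map]
  have hA : Fintype.card {h : H // h ≠ 1} = Nat.card H - 1 := by
    rw [← Nat.card_eq_fintype_card, Cnt_cardA]
  have hsub : ∀ φ : F g (N + 1) →* H, ∀ hφ : ∀ j : Fin (N + 1), φ (c g j) ≠ 1,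
      ¬ W.Sublist (List.ofFn fun j => φ (c g j)) →
      ¬ W'.Sublist (List.ofFn fun j : Fin N => (⟨φ (c g j.castSucc), hφ _⟩ : {h : H // h ≠ 1})) := by
    intro φ hφ h1 h2
    apply h1
    have h3 := h2.map Subtype.val
    rw [hW', List.map_ofFn] at h3
    rw [List.ofFn_succ']
    refine h3.trans ?_
    rw [List.concat_eq_append]
    exact List.sublist_append_left _ _
  rw [← Nat.card_coe_set_eq]
  refine le_trans (Nat.card_le_card_of_injective
    (β := (Fin g × Bool → H) × {c : Fin N → {h : H // h ≠ 1} // ¬ W'.Sublist (List.ofFn c)})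
    (fun φ => (Cnt_x φ.1, ⟨fun j => ⟨φ.1 (c g j.castSucc), φ.2.1.2 _⟩, hsub φ.1 φ.2.1.2 φ.2.2⟩)) ?_) ?_
  · rintro ⟨φ, hφ⟩ ⟨ψ, hψ⟩ h
    rw [Prod.mk.injEq] at h
    apply Subtype.ext
    refine Cnt_last hφ.1.1 hψ.1.1 h.1 fun j => ?_
    exact congrArg Subtype.val (congrFun (congrArg Subtype.val h.2) j)
  · rw [Nat.card_prod, Cnt_cardx]
    refine Nat.mul_le_mul_left _ ?_
    have h1 := seq_count W' N
    rwa [hlen, hA] at h1

private def Cnt_lift {g n : ℕ} (x : Fin g × Bool → H) (y : Fin n → H) : F g n →* H :=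
  FreeGroup.lift (Sum.elim x y)

omit [Finite H] in
private theorem Cnt_lift_x {g n : ℕ} (x : Fin g × Bool → H) (y : Fin n → H) : Cnt_x (Cnt_lift x y) = x := by
  funext p
  unfold Cnt_x Cnt_lift
  rw [FreeGroup.lift_apply_of]
  rfl

omit [Finite H] in
private theorem Cnt_lift_c {g n : ℕ} (x : Fin g × Bool → H) (y : Fin n → H) (j : Fin n) :
    Cnt_lift x y (c g j) = y j := by
  unfold Cnt_lift c
  rw [FreeGroup.lift_apply_of]
  rfl

theorem cov_ge (g K : ℕ) :
    Nat.card H ^ (2 * g) * (Nat.card H - 1) ^ (K + 1) ≤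
      (Cov H g (K + 2)).ncard + Nat.card H ^ (2 * g) * (Nat.card H - 1) ^ K := by
  classical
  haveI := Fintype.ofFinite H
  haveI := finite_hom (H := H) g (K + 2)
  -- the product
  obtain ⟨P, hP⟩ : ∃ P : (Fin g × Bool → H) × (Fin (K + 1) → {h : H // h ≠ 1}) → H,
      ∀ z, P z = Cnt_Q z.1 * (List.ofFn fun j => (z.2 j : H)).prod := ⟨_, fun _ => rfl⟩
  have h0 : Nat.card ((Fin g × Bool → H) × (Fin (K + 1) → {h : H // h ≠ 1})) =
      Nat.card H ^ (2 * g) * (Nat.card H - 1) ^ (K + 1) := by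
    rw [Nat.card_prod, Cnt_cardx, Nat.card_fun, Cnt_cardA]
    simp
  have h1 : Nat.card ((Fin g × Bool → H) × (Fin (K + 1) → {h : H // h ≠ 1})) =
      Nat.card {z // P z ≠ 1} + Nat.card {z // P z = 1} := by
    rw [← Nat.card_congr (Equiv.sumCompl fun z => P z = 1), Nat.card_sum, add_comm]
  have h2 : Nat.card {z // P z ≠ 1} ≤ (Cov H g (K + 2)).ncard := by
    rw [← Nat.card_coe_set_eq]
    refine Nat.card_le_card_of_injective (fun z => ⟨Cnt_lift z.1.1
      (Fin.snoc (α := fun _ => H) (fun j => (z.1.2 j : H)) (P z.1)⁻¹), ?_, fun j => ?_⟩) ?_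
    · rw [Cnt_R, Cnt_lift_x, List.ofFn_succ', List.prod_concat]
      simp only [Cnt_lift_c, Fin.snoc_castSucc, Fin.snoc_last]
      rw [← mul_assoc, ← hP, mul_inv_cancel]
    · rw [Cnt_lift_c]
      refine Fin.lastCases ?_ (fun j => ?_) j
      · rw [Fin.snoc_last]
        exact inv_ne_one.2 z.2
      · rw [Fin.snoc_castSucc]
        exact (z.1.2 j).2
    · rintro ⟨z, hz⟩ ⟨z', hz'⟩ h
      have h3 := congrArg Subtype.val h
      apply Subtype.ext
      refine Prod.ext ?_ ?_
      · have h4 := congrArg Cnt_x h3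
        rwa [Cnt_lift_x, Cnt_lift_x] at h4
      · funext j
        apply Subtype.ext
        have h4 := congrArg (fun φ : F g (K + 2) →* H => φ (c g (Fin.castSucc j))) h3
        simp only [Cnt_lift_c, Fin.snoc_castSucc] at h4
        exact h4
  have h3 : Nat.card {z // P z = 1} ≤ Nat.card H ^ (2 * g) * (Nat.card H - 1) ^ K := by
    have h4 : Nat.card ((Fin g × Bool → H) × (Fin K → {h : H // h ≠ 1})) =
        Nat.card H ^ (2 * g) * (Nat.card H - 1) ^ K := by
      rw [Nat.card_prod, Cnt_cardx, Nat.card_fun, Cnt_cardA]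
      simp
    rw [← h4]
    refine Nat.card_le_card_of_injective (fun z => (z.1.1, fun j => z.1.2 j.castSucc)) ?_
    rintro ⟨⟨x, y⟩, hz⟩ ⟨⟨x', y'⟩, hz'⟩ h
    rw [Prod.mk.injEq] at h
    obtain ⟨h5, h6⟩ := h
    simp only at h5 h6
    subst h5
    rw [hP, List.ofFn_succ', List.prod_concat] at hz hz'
    simp only at hz hz'
    have h7 : (List.ofFn fun i : Fin K => (y i.castSucc : H)) = List.ofFn fun i : Fin K => (y' i.castSucc : H) := by
      congr 1
      funext i
      exact congrArg Subtype.val (congrFun h6 i)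
    rw [← h7] at hz'
    have h8 := mul_left_cancel (mul_left_cancel (hz'.trans hz.symm))
    apply Subtype.ext
    refine Prod.ext rfl ?_
    funext j
    refine Fin.lastCases ?_ (fun j => ?_) j
    · exact Subtype.ext h8.symm
    · exact congrFun h6 j
  rw [← h0, h1]
  exact Nat.add_le_add h2 h3

end Pool.Agent.AL
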