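import Mathlib

set_option linter.all false

/-!
# The analytic part

`T = (q - 1) ^ w ≥ 2`, `θ ^ w = (T - 1) / T`, `C = 2 * θ ^ (-(w + 1))`.
-/

namespace Pool.Agent.AL

/-- The analytic part. -/
theorem ratio (q w : ℕ) (hq : 2 < q) (hw : 0 < w) : ∃ C θ : ℝ, 0 < θ ∧ θ < 1 ∧ ∀ (g n : ℕ) (bad cov : ℕ), bad ≤ cov →
    (∀ N, n = N + 1 → bad ≤ q ^ (2 * g) * (((q - 1) ^ w - 1) ^ (N / w) * (q - 1) ^ (N % w))) →
    (∀ K, n = K + 2 → q ^ (2 * g) * (q - 1) ^ (K + 1) ≤ cov + q ^ (2 * g) * (q - 1) ^ K) →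
    (bad : ℝ) ≤ C * θ ^ n * cov := by
  obtain ⟨r, rfl⟩ : ∃ r, q = r + 3 := ⟨q - 3, by omega⟩
  have hr : r + 3 - 1 = r + 2 := rfl
  rw [hr]
  obtain ⟨T, hT⟩ : ∃ T : ℝ, T = ((r + 2 : ℕ) : ℝ) ^ w := ⟨_, rfl⟩
  have hr1 : (1 : ℝ) < ((r + 2 : ℕ) : ℝ) := by
    push_cast
    have : (0 : ℝ) ≤ r := Nat.cast_nonneg r
    linarith
  have hT1 : 1 < T := hT ▸ one_lt_pow₀ hr1 hw.ne'
  have hT0 : 0 < T := by linarith
  obtain ⟨θ, hθ⟩ : ∃ θ : ℝ, θ = ((T - 1) / T) ^ ((w : ℝ)⁻¹) := ⟨_, rfl⟩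
  have hx : 0 < (T - 1) / T := div_pos (by linarith) hT0
  have hθ0 : 0 < θ := hθ ▸ Real.rpow_pos_of_pos hx _
  have hθw : θ ^ w = (T - 1) / T := by
    rw [hθ]
    exact Real.rpow_inv_natCast_pow hx.le hw.ne'
  have hθ1 : θ < 1 := by
    by_contra h
    have h1 := one_le_pow₀ (not_lt.1 h) (n := w)
    rw [hθw, le_div_iff₀ hT0] at h1
    linarith
  have hTm : T - 1 = θ ^ w * T := by
    rw [hθw, div_mul_cancel₀ _ hT0.ne']
  refine ⟨2 / θ ^ (w + 1), θ, hθ0, hθ1, fun g n bad cov hbc h1 h2 => ?_⟩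
  have hcov : (0 : ℝ) ≤ cov := Nat.cast_nonneg _
  have hbc' : (bad : ℝ) ≤ cov := by exact_mod_cast hbc
  have hpos : 0 < θ ^ (w + 1) := pow_pos hθ0 _
  rcases n with _ | _ | K
  · have h3 : (1 : ℝ) ≤ 2 / θ ^ (w + 1) * θ ^ 0 := by
      rw [pow_zero, mul_one, le_div_iff₀ hpos, one_mul]
      have := pow_le_one₀ hθ0.le hθ1.le (n := w + 1)
      linarith
    calc (bad : ℝ) ≤ cov := hbc'
      _ = 1 * cov := (one_mul _).symm
      _ ≤ _ := mul_le_mul_of_nonneg_right h3 hcov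
  · have h3 : (1 : ℝ) ≤ 2 / θ ^ (w + 1) * θ ^ (0 + 1) := by
      have e : 2 / θ ^ (w + 1) * θ ^ (0 + 1) = 2 / θ ^ w := by
        rw [pow_succ, zero_add, pow_one]
        field_simp
      rw [e, le_div_iff₀ (pow_pos hθ0 _), one_mul]
      have := pow_le_one₀ hθ0.le hθ1.le (n := w)
      linarith
    calc (bad : ℝ) ≤ cov := hbc'
      _ = 1 * cov := (one_mul _).symm
      _ ≤ _ := mul_le_mul_of_nonneg_right h3 hcov
  · have k1 := h1 (K + 1) rfl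
    have k2 := h2 K rfl
    obtain ⟨m, hm⟩ : ∃ m, m = (K + 1) / w := ⟨_, rfl⟩
    obtain ⟨s, hs⟩ : ∃ s, s = (K + 1) % w := ⟨_, rfl⟩
    have hms : w * m + s = K + 1 := by rw [hm, hs]; exact Nat.div_add_mod _ _
    have hsw : s < w := hs ▸ Nat.mod_lt _ hw
    rw [← hm, ← hs] at k1
    have hTn : ((((r + 2) ^ w - 1 : ℕ)) : ℝ) = T - 1 := by
      rw [Nat.cast_sub (Nat.one_le_pow _ _ (by omega)), hT]
      push_cast
      ring
    have k3 : (bad : ℝ) ≤ ((r + 3 : ℕ) : ℝ) ^ (2 * g) * ((T - 1) ^ m * ((r + 2 : ℕ) : ℝ) ^ s) := by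
      rw [← hTn]
      exact_mod_cast k1
    have k4 : ((r + 3 : ℕ) : ℝ) ^ (2 * g) * ((r + 2 : ℕ) : ℝ) ^ (K + 1) ≤
        cov + ((r + 3 : ℕ) : ℝ) ^ (2 * g) * ((r + 2 : ℕ) : ℝ) ^ K := by
      exact_mod_cast k2
    obtain ⟨A, hA⟩ : ∃ A : ℝ, A = ((r + 3 : ℕ) : ℝ) ^ (2 * g) := ⟨_, rfl⟩
    obtain ⟨B, hB⟩ : ∃ B : ℝ, B = ((r + 2 : ℕ) : ℝ) := ⟨_, rfl⟩
    rw [← hA, ← hB] at k3 k4
    rw [← hB] at hT hr1
    have hA0 : 0 ≤ A := hA ▸ pow_nonneg (Nat.cast_nonneg _) _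
    have hB2 : 2 ≤ B := by
      rw [hB]
      push_cast
      have : (0 : ℝ) ≤ r := Nat.cast_nonneg r
      linarith
    have hBK : 0 ≤ A * B ^ K := mul_nonneg hA0 (pow_nonneg (by linarith) _)
    -- the count of all covers
    have k5 : A * B ^ (K + 1) ≤ 2 * cov := by
      have e : A * B ^ (K + 1) = (A * B ^ K) * B := by rw [pow_succ]; ring
      rw [e] at k4 ⊢
      nlinarith
    -- the count of the bad covers
    have k6 : A * ((T - 1) ^ m * B ^ s) = A * B ^ (K + 1) * θ ^ (w * m) := by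
      rw [hTm, mul_pow, ← pow_mul, hT, ← pow_mul, ← hms, pow_add]
      ring
    have k7 : θ ^ (w * m) * θ ^ (w + 1) ≤ θ ^ (K + 2) := by
      rw [← pow_add]
      exact pow_le_pow_of_le_one hθ0.le hθ1.le (by omega)
    have k8 : θ ^ (w * m) ≤ θ ^ (K + 2) / θ ^ (w + 1) := by
      rw [le_div_iff₀ hpos]
      exact k7
    calc (bad : ℝ) ≤ A * B ^ (K + 1) * θ ^ (w * m) := by rw [← k6]; exact k3
      _ ≤ (2 * cov) * (θ ^ (K + 2) / θ ^ (w + 1)) :=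
        mul_le_mul k5 k8 (pow_nonneg hθ0.le _) (by positivity)
      _ = 2 / θ ^ (w + 1) * θ ^ (K + 1 + 1) * cov := by ring

end Pool.Agent.AL
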