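import Pool.Agent.Lib.MP_943dad_ag.AL.Cnt
import Pool.Agent.Lib.MP_943dad_ag.AL.Rat
import Pool.Agent.Lib.MP_943dad_ag.SO.Pt

set_option linter.all false

/-!
# Almost all covers become trivial on a handle
-/

namespace Pool.Agent.AL

open Pool.Agent.HMv

variable {H : Type} [Group H]

/-- The point criterion for a homomorphism. -/
theorem triv_of_pt [Finite H] {g n : ℕ} (φ : F (g + 1) n →* H) (B : Subgroup H) [B.Normal] {m : ℕ}
    (hm : Kills (H ⧸ B) m) {P : List H} (hP : Subgroup.closure {x | x ∈ P} = B) (hmg : m < g + 1)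
    (hC : (List.replicate (Nat.card B) P).flatten.Sublist (List.ofFn fun j => φ (c (g + 1) j))) :
    ∃ t : MulAut (F (g + 1) n), t (R (g + 1) n) = R (g + 1) n ∧
      (∀ j : Fin n, IsConj (t (c (g + 1) j)) (c (g + 1) j)) ∧
      φ (t (a n (Fin.last g))) = 1 ∧ φ (t (b n (Fin.last g))) = 1 := by
  have h1 := mp_B0 φ
  obtain ⟨L1, C1, h2⟩ := pt_criterion B hm hP
    (L := List.ofFn fun i : Fin (g + 1) => (φ (a n i), φ (b n i))) (C := List.ofFn fun j => φ (c (g + 1) j))
    (by simpa using hmg) hC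
  rw [← h1] at h2
  obtain ⟨α, k1, k2, k3⟩ := kills_apply φ h2
  have k4 := k3 (Fin.last g) (by simp)
  exact ⟨α, k1, k2, k4.1, k4.2⟩

/-- The pattern: all elements different from `1`, repeated `|H|` times. -/
theorem exists_pattern (H : Type) [Group H] [Finite H] : ∃ P : List H, (∀ x ∈ P, x ≠ 1) ∧
    Subgroup.closure {x | x ∈ P} = ⊤ := by
  classical
  haveI := Fintype.ofFinite H
  refine ⟨(Finset.univ.erase (1 : H)).toList, fun x hx => ?_, ?_⟩
  · rw [Finset.mem_toList] at hx
    exact Finset.ne_of_mem_erase hx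
  · rw [eq_top_iff]
    intro x _
    by_cases hx : x = 1
    · rw [hx]
      exact Subgroup.one_mem _
    · exact Subgroup.subset_closure (by simpa using hx)

end Pool.Agent.AL
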