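import Pool.Agent.Lib.MP_943dad_ag.AL.Fin
import Pool.Agent.Lib.MP_943dad_ag.BM.St

set_option linter.all false

/-!
# Almost all covers have big monodromy
-/

namespace Pool.Agent.AL

open Pool.Agent.HMv Pool.Agent.BigMon

/-- `φ` is onto, and the cohomology of the cover has a cup product, which is symplectic, and big monodromy. -/
def Big {H : Type} [Group H] [Fintype H] {g n : ℕ} (φ : F g n →* H) : Prop :=
  Function.Surjective φ ∧ ∃ ω : Form φ, IsCup φ ω ∧ Sympl ω ∧ BigM φ ω

/-- A cover which contains the pattern has big monodromy. -/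
theorem big_of_pattern {H : Type} [Group H] [Fintype H] {g n : ℕ} (hg : 3 ≤ g) {P : List H}
    (hP : Subgroup.closure {x | x ∈ P} = ⊤) (φ : F g n →* H) (hR : φ (R g n) = 1)
    (hC : (List.replicate (Nat.card H) P).flatten.Sublist (List.ofFn fun j => φ (c g j))) : Big φ := by
  obtain ⟨g, rfl⟩ : ∃ g', g = g' + 1 := ⟨g - 1, by omega⟩
  have hφ : Function.Surjective φ := by
    rw [← MonoidHom.range_eq_top, eq_top_iff, ← hP, Subgroup.closure_le]
    intro x hx
    have h1 : x ∈ (List.replicate (Nat.card H) P).flatten := by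
      rw [List.mem_flatten]
      refine ⟨P, ?_, hx⟩
      rw [List.mem_replicate]
      exact ⟨Nat.card_pos.ne', rfl⟩
    have h2 := hC.subset h1
    rw [List.mem_ofFn] at h2
    obtain ⟨j, hj⟩ := h2
    exact ⟨_, hj⟩
  have hsub : Subsingleton (H ⧸ (⊤ : Subgroup H)) := QuotientGroup.subsingleton_quotient_top
  have hcard : Nat.card (⊤ : Subgroup H) = Nat.card H := Subgroup.card_top
  rw [← hcard] at hC
  obtain ⟨t, h1, h2, h3⟩ := triv_of_pt φ ⊤ (kills_of_subsingleton (H ⧸ (⊤ : Subgroup H))) hP (by omega) hC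
  exact ⟨hφ, main hg φ hφ hR t h1 h2 h3⟩

/-- A cover with a trivial group has big monodromy. -/
theorem big_of_subsingleton {H : Type} [Group H] [Fintype H] [Subsingleton H] {g n : ℕ} (hg : 3 ≤ g)
    (φ : F g n →* H) : Big φ := by
  obtain ⟨g, rfl⟩ : ∃ g', g = g' + 1 := ⟨g - 1, by omega⟩
  have hφ : Function.Surjective φ := fun x => ⟨1, Subsingleton.elim _ _⟩
  exact ⟨hφ, main hg φ hφ (Subsingleton.elim _ _) 1 rfl (fun j => IsConj.refl _)
    ⟨Subsingleton.elim _ _, Subsingleton.elim _ _⟩⟩

/-- Branched double covers have big monodromy. -/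
theorem big_of_two {H : Type} [Group H] [Fintype H] (h2 : Nat.card H = 2) {g n : ℕ} (hg : 3 ≤ g) (hn : 0 < n)
    (φ : F g n →* H) (hR : φ (R g n) = 1) (hc : ∀ j : Fin n, φ (c g j) ≠ 1) : Big φ := by
  classical
  haveI : Fact (Nat.Prime 2) := ⟨Nat.prime_two⟩
  have hcyc : IsCyclic H := isCyclic_of_prime_card h2
  have hcomm : ∀ x y : H, x * y = y * x := fun x y => (IsCyclic.commGroup (α := H)).mul_comm x y
  -- the second element
  obtain ⟨t, ht⟩ : ∃ t : H, t = φ (c g ⟨0, hn⟩) := ⟨_, rfl⟩
  have ht1 : t ≠ 1 := by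
    rw [ht]
    exact hc _
  have hall : ∀ x : H, x ≠ 1 → x = t := by
    intro x hx
    by_contra hxt
    have h3 : ({1, t, x} : Finset H).card ≤ Fintype.card H := Finset.card_le_univ _
    rw [← Nat.card_eq_fintype_card, h2, Finset.card_insert_of_notMem, Finset.card_insert_of_notMem,
      Finset.card_singleton] at h3
    · omega
    · rw [Finset.mem_singleton]
      exact fun h => hxt h.symm
    · rw [Finset.mem_insert, Finset.mem_singleton, not_or]
      exact ⟨fun h => ht1 h.symm, fun h => hx h.symm⟩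
  have hct : ∀ j : Fin n, φ (c g j) = t := fun j => hall _ (hc j)
  -- the number of branch points is not one
  have hn2 : 2 ≤ n := by
    by_contra hlt
    obtain rfl : n = 1 := by omega
    have h4 : φ (R g 1) = t := by
      rw [R, map_mul, map_list_prod, map_list_prod, List.map_ofFn, List.map_ofFn]
      have h5 : (List.ofFn (φ ∘ fun i : Fin g => a 1 i * b 1 i * (a 1 i)⁻¹ * (b 1 i)⁻¹)).prod = 1 := by
        refine List.prod_eq_one fun x hx => ?_
        rw [List.mem_ofFn] at hx
        obtain ⟨i, rfl⟩ := hx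
        rw [Function.comp_apply, map_mul, map_mul, map_mul, map_inv, map_inv, hcomm (φ (a 1 i)) (φ (b 1 i))]
        group
      rw [h5, one_mul]
      simp [List.ofFn_succ, hct]
    rw [hR] at h4
    exact ht1 h4.symm
  have hP : Subgroup.closure {x | x ∈ [t]} = ⊤ := by
    have h6 : {x | x ∈ [t]} = ({t} : Set H) := by
      ext x
      simp
    rw [h6, ← Subgroup.zpowers_eq_closure]
    exact zpowers_eq_top_of_prime_card h2 ht1
  refine big_of_pattern hg hP φ hR ?_
  have h7 : (List.ofFn fun j => φ (c g j)) = List.replicate n t := by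
    have : (fun j : Fin n => φ (c g j)) = fun _ => t := funext hct
    rw [this, List.ofFn_const]
  have h8 : (List.replicate (Nat.card H) [t]).flatten = List.replicate 2 t := by
    rw [h2]
    rfl
  rw [h7, h8]
  exact List.replicate_sublist_replicate t |>.2 hn2

/-- **Almost all covers have big monodromy.** -/
theorem almost_all (H : Type) [Group H] [Fintype H] : ∃ C θ : ℝ, 0 < θ ∧ θ < 1 ∧ ∀ g n : ℕ, 3 ≤ g →
    ({φ ∈ Cov H g n | ¬ Big φ}.ncard : ℝ) ≤ C * θ ^ n * (Cov H g n).ncard := by
  classical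
  have hfin : ∀ g n, (Cov H g n).Finite := fun g n => by
    haveI := finite_hom (H := H) g n
    exact Set.toFinite _
  rcases Nat.lt_or_ge 2 (Nat.card H) with hq | hq
  · -- at least three elements
    obtain ⟨P, hP1, hP⟩ := exists_pattern H
    obtain ⟨W, hW⟩ : ∃ W, W = (List.replicate (Nat.card H) P).flatten := ⟨_, rfl⟩
    have hPne : P ≠ [] := by
      rintro rfl
      have h1 : (⊥ : Subgroup H) = ⊤ := by
        rw [← hP]
        simp
      have h2 : Nat.card H = 1 := by
        rw [← Subgroup.card_top (G := H), ← h1, Subgroup.card_bot]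
      omega
    have hw : 0 < W.length := by
      rw [List.length_pos_iff, hW]
      intro h
      rw [List.flatten_eq_nil_iff] at h
      exact hPne (h P (List.mem_replicate.2 ⟨by omega, rfl⟩))
    have hW1 : ∀ w ∈ W, w ≠ 1 := by
      intro w hw
      rw [hW, List.mem_flatten] at hw
      obtain ⟨l, hl, hwl⟩ := hw
      rw [List.eq_of_mem_replicate hl] at hwl
      exact hP1 w hwl
    obtain ⟨C, θ, h0, h1, hr⟩ := ratio (Nat.card H) W.length hq hw
    refine ⟨C, θ, h0, h1, fun g n hg => ?_⟩
    have hsub : {φ ∈ Cov H g n | ¬ Big φ} ⊆ {φ ∈ Cov H g n | ¬ W.Sublist (List.ofFn fun j => φ (c g j))} := by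
      rintro φ ⟨h2, h3⟩
      refine ⟨h2, fun h4 => h3 ?_⟩
      rw [hW] at h4
      exact big_of_pattern hg hP φ h2.1 h4
    refine hr g n _ _ ?_ ?_ ?_
    · exact Set.ncard_le_ncard (fun φ h => h.1) (hfin g n)
    · rintro N rfl
      refine le_trans (Set.ncard_le_ncard hsub ?_) (bad_le g N W hW1)
      exact (hfin g (N + 1)).subset fun φ h => h.1
    · rintro K rfl
      exact cov_ge g K
  · -- at most two elements
    refine ⟨1, 1 / 2, by norm_num, by norm_num, fun g n hg => ?_⟩
    rcases Nat.eq_zero_or_pos n with rfl | hn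
    · rw [pow_zero, one_mul, one_mul]
      exact_mod_cast Set.ncard_le_ncard (fun φ (h : φ ∈ {φ ∈ Cov H g 0 | ¬ Big φ}) => h.1) (hfin g 0)
    have hempty : {φ ∈ Cov H g n | ¬ Big φ} = ∅ := by
      rw [Set.eq_empty_iff_forall_notMem]
      rintro φ ⟨⟨hR, hc⟩, hbad⟩
      have hpos : 0 < Nat.card H := Nat.card_pos
      rcases (by omega : Nat.card H = 1 ∨ Nat.card H = 2) with h1 | h2
      · haveI : Subsingleton H := (Nat.card_eq_one_iff_unique.1 h1).1
        exact hbad (big_of_subsingleton hg φ)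
      · exact hbad (big_of_two h2 hg hn φ hR hc)
    rw [hempty, Set.ncard_empty, Nat.cast_zero]
    positivity

end Pool.Agent.AL
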