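import Mathlib

set_option linter.all false

/-!
# Sequences which do not contain a given pattern

Plan. `f N` = the number of sequences `Fin N → A` of which `W` is not a sublist. `f (w + N) ≤ (α ^ w - 1) * f N`, `w = W.length`, `α = |A|`: by
`Fin.appendEquiv` (or `Fin.append`), `List.ofFn (Fin.append u v) = ofFn u ++ ofFn v` (`List.ofFn_fin_append`): if `u` is `W` itself, `W` is a sublist;
so `u` is one of the other `α ^ w - 1` sequences, and `W` is not a sublist of `v`. `f N ≤ α ^ N`. Induction on `N / w`.
-/

namespace Pool.Agent.AL

theorem seq_le {A : Type} [Fintype A] [DecidableEq A] (W : List A) (N : ℕ) :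
    Nat.card {c : Fin N → A // ¬ W.Sublist (List.ofFn c)} ≤ Fintype.card A ^ N := by
  have h := Nat.card_le_card_of_injective
    (Subtype.val : {c : Fin N → A // ¬ W.Sublist (List.ofFn c)} → (Fin N → A)) Subtype.val_injective
  have h2 : Nat.card (Fin N → A) = Fintype.card A ^ N := by
    rw [Nat.card_eq_fintype_card]
    simp
  omega

theorem seq_step {A : Type} [Fintype A] [DecidableEq A] (W : List A) (N : ℕ) :
    Nat.card {c : Fin (W.length + N) → A // ¬ W.Sublist (List.ofFn c)} ≤
      (Fintype.card A ^ W.length - 1) * Nat.card {c : Fin N → A // ¬ W.Sublist (List.ofFn c)} := by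
  classical
  have hc : Nat.card {u : Fin W.length → A // u ≠ W.get} = Fintype.card A ^ W.length - 1 := by
    rw [Nat.card_eq_fintype_card, Fintype.card_subtype, Finset.filter_ne',
      Finset.card_erase_of_mem (Finset.mem_univ _), Finset.card_univ]
    simp
  have key : ∀ c : Fin (W.length + N) → A, List.ofFn c =
      List.ofFn (fun i => c (Fin.castAdd N i)) ++ List.ofFn (fun j => c (Fin.natAdd W.length j)) := by
    intro c
    rw [← List.ofFn_fin_append, Fin.append_castAdd_natAdd]
  rw [← hc, ← Nat.card_prod]
  refine Nat.card_le_card_of_injective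
    (fun c => (⟨fun i => c.1 (Fin.castAdd N i), ?_⟩, ⟨fun j => c.1 (Fin.natAdd W.length j), ?_⟩)) ?_
  · intro h
    apply c.2
    rw [key c.1, h, List.ofFn_get]
    exact List.sublist_append_left _ _
  · intro h
    apply c.2
    rw [key c.1]
    exact h.trans (List.sublist_append_right _ _)
  · intro c d h
    apply Subtype.ext
    have h1 := congrArg (fun p => p.1.1) h
    have h2 := congrArg (fun p => p.2.1) h
    simp only at h1 h2
    rw [← Fin.append_castAdd_natAdd (f := c.1), ← Fin.append_castAdd_natAdd (f := d.1)]
    rw [h1, h2]

theorem seq_count {A : Type} [Fintype A] [DecidableEq A] (W : List A) (N : ℕ) :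
    Nat.card {c : Fin N → A // ¬ W.Sublist (List.ofFn c)} ≤
      (Fintype.card A ^ W.length - 1) ^ (N / W.length) * Fintype.card A ^ (N % W.length) := by
  have key : ∀ k r : ℕ, Nat.card {c : Fin (W.length * k + r) → A // ¬ W.Sublist (List.ofFn c)} ≤
      (Fintype.card A ^ W.length - 1) ^ k * Fintype.card A ^ r := by
    intro k
    induction k with
    | zero =>
      intro r
      have h := seq_le W (W.length * 0 + r)
      simpa using h
    | succ k ih =>
      intro r
      have h := seq_step W (W.length * k + r)
      have e : W.length * (k + 1) + r = W.length + (W.length * k + r) := by ring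
      rw [e]
      calc _ ≤ _ := h
        _ ≤ (Fintype.card A ^ W.length - 1) * ((Fintype.card A ^ W.length - 1) ^ k * Fintype.card A ^ r) :=
            Nat.mul_le_mul_left _ (ih r)
        _ = _ := by ring
  have h := key (N / W.length) (N % W.length)
  rwa [Nat.div_add_mod] at h

end Pool.Agent.AL
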